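import Pool.Agent.Helper758_ST.B4

/-!
# Santaló's shadow perimeter inequality for tetrahedra

For every tetrahedron `K` (the convex hull of four affinely independent points of `ℝ³`) the least
perimeter `m(K)` of a shadow satisfies `m(K)² ≤ (2 + 4/√3) S(K)`, with equality exactly for the
regular tetrahedra; moreover the bound already holds for the shadow along one of the six edges.

* `surfaceArea K`: the two-dimensional Hausdorff measure of the boundary of `K`.
* `shadow P K`: the orthogonal projection of `K` to the plane `P`.
* `perimeter u K`: the one-dimensional Hausdorff measure of the boundary (relative to that plane) of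
  the shadow in the plane `u^⊥`.
* `minPerimeter K`: the infimum of the perimeters over all unit vectors `u`.
* `santaloBound K`: `(2 + 4/√3) S(K)`.
-/

set_option autoImplicit false

open MeasureTheory Set
open scoped ENNReal

namespace Pool.Agent.Results.MP_72c0ec_gt.Tetrahedra

/-- Euclidean space `ℝⁿ`. -/
abbrev E (n : ℕ) : Type := EuclideanSpace ℝ (Fin n)

/-- The surface area: the two-dimensional Hausdorff measure of the boundary, normalised so that it
agrees with Lebesgue measure on planes. -/
noncomputable def surfaceArea (K : Set (E 3)) : ℝ := (μHE[2] (frontier K)).toReal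

section shadows

variable {V : Type} [NormedAddCommGroup V] [InnerProductSpace ℝ V] [MeasurableSpace V]
  [BorelSpace V]

/-- The shadow of `K` in the subspace `P`: the image of `K` under the orthogonal projection to
`P`. -/
noncomputable def shadow (P : Submodule ℝ V) [P.HasOrthogonalProjection] (K : Set V) : Set P :=
  P.orthogonalProjectionOnto '' K

/-- The perimeter of the shadow in a plane `P`: the length (one-dimensional Hausdorff measure) of
its boundary, taken in `P`. -/
noncomputable def shadowPerimeter (P : Submodule ℝ V) [P.HasOrthogonalProjection] (K : Set V) : ℝ :=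
  (μHE[1] (frontier (shadow P K))).toReal

/-- The perimeter of the shadow of `K` in the plane `u^⊥`. -/
noncomputable def perimeter (u : V) (K : Set V) : ℝ := shadowPerimeter (ℝ ∙ u)ᗮ K

end shadows

/-- The least perimeter of a shadow of `K`; the planes through the origin are the planes `u^⊥`,
`‖u‖ = 1`. -/
noncomputable def minPerimeter (K : Set (E 3)) : ℝ := 
  ⨅ u : Metric.sphere (0 : E 3) 1, perimeter (u : E 3) K

/-- The right-hand side of Santaló's inequality. -/
noncomputable def santaloBound (K : Set (E 3)) : ℝ := (2 + 4 / √3) * surfaceArea K

/-- The tetrahedron with vertices `p 0, p 1, p 2, p 3`. -/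
def tetrahedron (p : Fin 4 → E 3) : Set (E 3) := convexHull ℝ (range p)

/-- All six edges have the same length. -/
def AllEdgesEqual (p : Fin 4 → E 3) : Prop := ∃ l : ℝ, ∀ i j : Fin 4, i ≠ j → dist (p i) (p j) = l

/-- The unit vector along the edge from `p i` to `p j`. -/
noncomputable def edgeDirection (p : Fin 4 → E 3) (i j : Fin 4) : E 3 :=
  ‖p j - p i‖⁻¹ • (p j - p i)

/-- Santaló's inequality for the tetrahedron with vertices `p 0, p 1, p 2, p 3`, the equality case,
and the inequality for a shadow along an edge. -/
theorem result (p : Fin 4 → E 3) (hp : AffineIndependent ℝ p) :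
    minPerimeter (tetrahedron p) ^ 2 ≤ santaloBound (tetrahedron p) ∧
    (minPerimeter (tetrahedron p) ^ 2 = santaloBound (tetrahedron p) ↔ AllEdgesEqual p) ∧
    ∃ i j : Fin 4, i ≠ j ∧
      perimeter (edgeDirection p i j) (tetrahedron p) ^ 2 ≤ santaloBound (tetrahedron p) := by
  refine ⟨(Helper758_ST.min_bound p hp).1, ⟨(Helper758_ST.min_bound p hp).2, ?_⟩, ?_⟩
  · rintro ⟨l, hl⟩
    exact Helper758_ST.regular_eq hp hl
  · obtain ⟨i, j, hij, h, -⟩ := Helper758_ST.edge_bound p hp
    exact ⟨i, j, hij, h⟩

end Pool.Agent.Results.MP_72c0ec_gt.Tetrahedra
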