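import Pool.Agent.Helper758_ST.Y4

/-!
# Santaló's shadow perimeter inequality for zonoids

Let `m(K)` be the least perimeter of a shadow of a convex body `K` in `ℝ³` and `S(K)` its surface
area. Every zonoid satisfies `m(K)² ≤ π S(K)`, hence `m(K)² < (2 + 4/√3) S(K)`. More generally, if
`Z ⊆ K ⊆ w + c Z` for a zonoid `Z`, then `m(K)² ≤ π c² S(K)`. A zonotope with `n` generators
satisfies `m(K)² ≤ 4 (1 - 1/n) S(K)`.

* `surfaceArea K`: the two-dimensional Hausdorff measure of the boundary of `K`.
* `shadow P K`: the orthogonal projection of `K` to the plane `P`.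
* `perimeter u K`: the one-dimensional Hausdorff measure of the boundary (relative to that plane) of
  the shadow in the plane `u^⊥`.
* `minPerimeter K`: the infimum of the perimeters over all unit vectors `u`.
* `zonotope v s`: all sums `v + ∑ i, t i • s i` with `0 ≤ t i ≤ 1`.
* `IsZonoid K`: there are zonotopes arbitrarily close to `K` in the Hausdorff distance.
-/

set_option autoImplicit false

open MeasureTheory Set
open scoped ENNReal

namespace Pool.Agent.Results.MP_72c0ec_gt.Zonoids

/-- Euclidean space `ℝⁿ`. -/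
abbrev E (n : ℕ) : Type := EuclideanSpace ℝ (Fin n)

/-- Convex bodies: compact convex sets with nonempty interior. -/
def IsConvexBody (K : Set (E 3)) : Prop := IsCompact K ∧ Convex ℝ K ∧ (interior K).Nonempty

/-- The surface area: the two-dimensional Hausdorff measure of the boundary, normalised so that it
agrees with Lebesgue measure on planes. -/
noncomputable def surfaceArea (K : Set (E 3)) : ℝ := (μHE[2] (frontier K)).toReal

section shadows

variable {V : Type} [NormedAddCommGroup V] [InnerProductSpace ℝ V] [MeasurableSpace V]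
  [BorelSpace V]

/-- The shadow of `K` in the subspace `P`: the image of `K` under the orthogonal projection to
`P`. -/
noncomputable def shadow (P : Submodule ℝ V) [P.HasOrthogonalProjection] (K : Set V) : Set P :=
  P.orthogonalProjectionOnto '' K

/-- The perimeter of the shadow in a plane `P`: the length (one-dimensional Hausdorff measure) of
its boundary, taken in `P`. -/
noncomputable def shadowPerimeter (P : Submodule ℝ V) [P.HasOrthogonalProjection] (K : Set V) : ℝ :=
  (μHE[1] (frontier (shadow P K))).toReal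

/-- The perimeter of the shadow of `K` in the plane `u^⊥`. -/
noncomputable def perimeter (u : V) (K : Set V) : ℝ := shadowPerimeter (ℝ ∙ u)ᗮ K

end shadows

/-- The least perimeter of a shadow of `K`; the planes through the origin are the planes `u^⊥`,
`‖u‖ = 1`. -/
noncomputable def minPerimeter (K : Set (E 3)) : ℝ := 
  ⨅ u : Metric.sphere (0 : E 3) 1, perimeter (u : E 3) K

/-- The zonotope `v + [0, s 1] + ... + [0, s n]`, a translated Minkowski sum of segments. -/
def zonotope {n : ℕ} (v : E 3) (s : Fin n → E 3) : Set (E 3) :=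
  {x | ∃ t : Fin n → ℝ, (∀ i, 0 ≤ t i ∧ t i ≤ 1) ∧ x = v + ∑ i, t i • s i}

/-- Zonoids are the limits of zonotopes in the Hausdorff distance (used for compact sets `K`
only). -/
def IsZonoid (K : Set (E 3)) : Prop :=
  ∀ ε : ℝ, 0 < ε → ∃ (n : ℕ) (v : E 3) (s : Fin n → E 3),
    Metric.hausdorffDist K (zonotope v s) < ε

theorem zonotope_eq {n : ℕ} (v : E 3) (s : Fin n → E 3) : zonotope v s = Helper758_ST.tz v s := by
  ext x
  constructor
  · rintro ⟨t, ht, rfl⟩
    exact ⟨_, ⟨t, ht, rfl⟩, rfl⟩
  · rintro ⟨_, ⟨t, ht, rfl⟩, rfl⟩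
    exact ⟨t, ht, rfl⟩

/-- Zonoids satisfy Santaló's inequality with the constant `π` in place of `2 + 4/√3`; bodies close
to a zonoid `Z` satisfy it with the constant `π c²`; zonotopes with `n` generators satisfy it with
the constant `4 (1 - 1/n)`. -/
theorem result :
    (∀ K : Set (E 3), IsConvexBody K → IsZonoid K →
      minPerimeter K ^ 2 ≤ Real.pi * surfaceArea K ∧
      minPerimeter K ^ 2 < (2 + 4 / √3) * surfaceArea K) ∧
    (∀ K Z : Set (E 3), IsConvexBody K → IsConvexBody Z → IsZonoid Z → ∀ (c : ℝ) (w : E 3), 0 < c →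
      Z ⊆ K → K ⊆ {x | ∃ z ∈ Z, x = w + c • z} →
      minPerimeter K ^ 2 ≤ Real.pi * c ^ 2 * surfaceArea K) ∧
    (∀ (n : ℕ) (v : E 3) (s : Fin n → E 3), 3 ≤ n → IsConvexBody (zonotope v s) →
      minPerimeter (zonotope v s) ^ 2 ≤ 4 * (1 - 1 / n) * surfaceArea (zonotope v s)) := by
  refine ⟨fun K hK hz => ?_, fun K Z hK hZ hz c w hc hZK hKZ => ?_, fun n v s hn hK => ?_⟩
  · have h : ∀ ε : ℝ, 0 < ε → ∃ (n : ℕ) (v : E 3) (s : Fin n → E 3),
        Metric.hausdorffDist K (Helper758_ST.tz v s) < ε := by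
      intro ε hε
      obtain ⟨n, v, s, hd⟩ := hz ε hε
      exact ⟨n, v, s, by rwa [← zonotope_eq]⟩
    obtain ⟨h1, h2⟩ := Helper758_ST.zonoid_pi hK.1 hK.2.1 hK.2.2 h
    exact ⟨h1, lt_of_le_of_lt h1 (mul_lt_mul_of_pos_right Helper758_ST.pi_lt h2)⟩
  · have h : ∀ ε : ℝ, 0 < ε → ∃ (n : ℕ) (v : E 3) (s : Fin n → E 3),
        Metric.hausdorffDist Z (Helper758_ST.tz v s) < ε := by
      intro ε hε
      obtain ⟨n, v, s, hd⟩ := hz ε hε
      exact ⟨n, v, s, by rwa [← zonotope_eq]⟩
    have := (Helper758_ST.near_zonoid hZ.1 hZ.2.1 hZ.2.2 h hK.1 hK.2.1 hZK hc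
      (w := w) (fun x hx => hKZ hx)).1
    rw [mul_assoc]
    exact this
  · rw [zonotope_eq] at hK ⊢
    exact (Helper758_ST.zonotope_bound hn v s hK.2.2).1

end Pool.Agent.Results.MP_72c0ec_gt.Zonoids
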